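import Pool.Agent.Q58.NC.Stm

/-!
# Project NC (helper58), job TENS: the relation of the tensor of an arc of `q + 1` points
(the proof of `tt_sum` of `Pool.Agent.W865.Arc` with other cardinalities)
-/

set_option autoImplicit false

open Finset

namespace Pool.Agent.Q47.NC

open Pool.Agent.W865

theorem task_TENS : Pool.Agent.Q58.NC.S_TENS := by
  intro α β F _ _ _ _ _ _ _ m S hS hodd hcard hm X Z hXZ hZ hX
  classical
  set u : Fin m → (Fin (m + 2) → F) := fun i => S (Sum.inl (Zᶜ.orderEmbOfFin hZ i)) with hu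
  have hZc : Z.card + m = Fintype.card α := by
    rw [← hZ]
    exact Finset.card_add_card_compl Z
  set W : Finset (α ⊕ β) := Z.disjSum univ with hW
  set R : Finset (α ⊕ β) := (Z \ X).map ⟨Sum.inl, Sum.inl_injective⟩ with hR
  have hWc : W.card = Z.card + Fintype.card β := by
    rw [hW, Finset.card_disjSum, Finset.card_univ]
  have hRc : R.card = m + 2 := by
    rw [hR, Finset.card_map, Finset.card_sdiff_of_subset hXZ]
    omega
  have hRW : R ⊆ W := by
    intro s hs
    rw [hR, Finset.mem_map] at hs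
    obtain ⟨a, ha, rfl⟩ := hs
    rw [hW, Function.Embedding.coeFn_mk, Finset.inl_mem_disjSum]
    exact (Finset.mem_sdiff.mp ha).1
  have hne : ∀ s ∈ W, ∀ a ∈ W, s ≠ a → hB u (S s) (S a) ≠ 0 := by
    intro s hs a ha hsa
    have hsZ : ∀ t ∈ W, ∀ i, t ≠ Sum.inl (Zᶜ.orderEmbOfFin hZ i) := by
      intro t ht i h
      have h1 := Finset.orderEmbOfFin_mem Zᶜ hZ i
      rw [h, hW, Finset.inl_mem_disjSum] at ht
      exact (Finset.mem_compl.mp h1) ht
    unfold hB
    rw [hF_apply]
    have h1 : Matrix.vecCons (S s) (Matrix.vecCons (S a) u) =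
        fun i => S (Matrix.vecCons s (Matrix.vecCons a
          (fun i => Sum.inl (Zᶜ.orderEmbOfFin hZ i))) i) := by
      funext i
      refine Fin.cases rfl (fun i => ?_) i
      refine Fin.cases rfl (fun _ => rfl) i
    rw [h1]
    apply hS
    intro i j
    refine Fin.cases ?_ (fun i => ?_) i <;> refine Fin.cases ?_ (fun j => ?_) j
    · intro _; rfl
    · refine Fin.cases ?_ (fun j => ?_) j
      · intro h
        exact absurd (by simpa using h) hsa
      · intro h
        exact absurd (by simpa using h) (hsZ s hs j)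
    · refine Fin.cases ?_ (fun i => ?_) i
      · intro h
        exact absurd (by simpa using h.symm) hsa
      · intro h
        exact absurd (by simpa using h.symm) (hsZ s hs i)
    · refine Fin.cases ?_ (fun i => ?_) i <;> refine Fin.cases ?_ (fun j => ?_) j
      · intro _; rfl
      · intro h
        exact absurd (by simpa using h) (hsZ a ha j)
      · intro h
        exact absurd (by simpa using h.symm) (hsZ a ha i)
      · intro h
        simp only [Matrix.cons_val_succ] at h
        rw [(Zᶜ.orderEmbOfFin hZ).injective (Sum.inl_injective h)]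
  have hterm : ∀ a ∈ Z \ X, tt S X (Z.erase a) =
      (∏ s ∈ W.erase (Sum.inl a), hB u (S s) (S (Sum.inl a)))⁻¹ *
        (∏ s ∈ R.erase (Sum.inl a), hB u (S s) (S (Sum.inl a)))⁻¹ := by
    intro a ha
    rw [Finset.mem_sdiff] at ha
    have haD : a ∉ Zᶜ := by simp [ha.1]
    obtain ⟨ε, hε, hεx⟩ := hC_insert S hZ haD
    have h1 : (Z.erase a)ᶜ = insert a Zᶜ := by
      rw [Finset.compl_erase]
    have h2 : (Z.erase a).disjSum (univ : Finset β) = W.erase (Sum.inl a) := by
      ext s
      rcases s with s | s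
      · simp [hW, Finset.inl_mem_disjSum]
      · simp [hW, Finset.inr_mem_disjSum]
    have h3 : R.erase (Sum.inl a) = ((Z.erase a) \ X).map ⟨Sum.inl, Sum.inl_injective⟩ := by
      ext s
      rcases s with s | s
      · simp [hR]
        tauto
      · simp [hR]
    have h5 : ∏ s ∈ W.erase (Sum.inl a), (ε * hB u (S s) (S (Sum.inl a))) =
        ε ^ (W.card - 1) * ∏ s ∈ W.erase (Sum.inl a), hB u (S s) (S (Sum.inl a)) := by
      rw [Finset.prod_mul_distrib, Finset.prod_const, Finset.card_erase_of_mem]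
      exact hRW (by rw [hR, Finset.mem_map]; exact ⟨a, by simp [ha.1, ha.2], rfl⟩)
    have h6 : ∏ s ∈ R.erase (Sum.inl a), (ε * hB u (S s) (S (Sum.inl a))) =
        ε ^ (R.card - 1) * ∏ s ∈ R.erase (Sum.inl a), hB u (S s) (S (Sum.inl a)) := by
      rw [Finset.prod_mul_distrib, Finset.prod_const, Finset.card_erase_of_mem]
      rw [hR, Finset.mem_map]; exact ⟨a, by simp [ha.1, ha.2], rfl⟩
    have h7 : ∏ y ∈ (Z.erase a) \ X, hC S (insert a Zᶜ) (S (Sum.inl y)) =
        ∏ s ∈ R.erase (Sum.inl a), hC S (insert a Zᶜ) (S s) := by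
      rw [h3, Finset.prod_map]
      rfl
    unfold tt
    rw [h1, h2, h7]
    simp only [hεx]
    rw [h5, h6]
    have h8 : ε ^ (W.card - 1) * ε ^ (R.card - 1) = 1 := by
      rw [← pow_add]
      obtain ⟨r, hr⟩ := hodd
      have h9 : W.card - 1 + (R.card - 1) = 2 * (r + 1) := by omega
      rw [h9, pow_mul, pow_two, hε, one_pow]
    have h10 : ε ^ (W.card - 1) ≠ 0 := left_ne_zero_of_mul_eq_one h8
    have h11 : ε ^ (R.card - 1) ≠ 0 := right_ne_zero_of_mul_eq_one h8
    rw [mul_inv, mul_inv]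
    calc _ = (ε ^ (W.card - 1) * ε ^ (R.card - 1))⁻¹ *
        ((∏ s ∈ W.erase (Sum.inl a), hB u (S s) (S (Sum.inl a)))⁻¹ *
        (∏ s ∈ R.erase (Sum.inl a), hB u (S s) (S (Sum.inl a)))⁻¹) := by
          rw [mul_inv]; ring
      _ = _ := by rw [h8, inv_one, one_mul]
  rw [Finset.sum_congr rfl hterm]
  have h12 : ∑ a ∈ Z \ X, (∏ s ∈ W.erase (Sum.inl a), hB u (S s) (S (Sum.inl a)))⁻¹ *
        (∏ s ∈ R.erase (Sum.inl a), hB u (S s) (S (Sum.inl a)))⁻¹ =
      ∑ a ∈ R, (∏ s ∈ W.erase a, hB u (S s) (S a))⁻¹ *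
        (∏ s ∈ R.erase a, hB u (S s) (S a))⁻¹ := by
    rw [hR, Finset.sum_map]
    rfl
  rw [h12]
  -- two points of `W`
  obtain ⟨s₁, hs₁, s₂, hs₂, hs₁₂⟩ := Finset.one_lt_card.mp (by omega : 1 < W.card)
  have hκ := hne s₁ hs₁ s₂ hs₂ hs₁₂
  apply lagrange_two W R hRW S (hB u) (fun x => hB u x (S s₂)) (fun x => hB u (S s₁) x)
    (hB u (S s₁) (S s₂))⁻¹ _ hne (by omega) (by omega) (by omega)
  intro x y
  exact hB_pluecker u (S s₁) (S s₂) hκ x y

end Pool.Agent.Q47.NC
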